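import Pool.Agent.W425.BF.Stm

/-! Project BF, part FIB: summation over the fibres in one direction (helper794). -/

set_option autoImplicit false

namespace Pool.Agent.W794.BF

open Pool.Agent.W425.BF
open Pool.Agent.W426.SM (gord face IsRay)
open Pool.Agent.W803.SM (filt mem_filt gord_le exists_gord summable_half)

variable {n k : ℕ}

/-- difference of weights -/
def dl (m : Fin k → Fin n → ℕ) (j0 j : Fin k) (u : Fin n → ℕ) : ℤ :=
  ∑ x, ((m j x : ℤ) - m j0 x) * (u x : ℤ)

theorem sum_upd {R : Type} [CommSemiring R] (h : Fin n → R) (u : Fin n → ℕ) (i : Fin n) (a : ℕ)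
    (hu : u i = 0) : ∑ x, h x * ((Function.update u i a x : ℕ) : R) =
      ∑ x, h x * (u x : R) + h i * a := by
  rw [← Finset.add_sum_erase Finset.univ _ (Finset.mem_univ i),
    ← Finset.add_sum_erase Finset.univ (fun x => h x * (u x : R)) (Finset.mem_univ i)]
  have : ∑ x ∈ Finset.univ.erase i, h x * ((Function.update u i a x : ℕ) : R) =
      ∑ x ∈ Finset.univ.erase i, h x * (u x : R) := by
    refine Finset.sum_congr rfl fun x hx => ?_
    rw [Function.update_of_ne (Finset.ne_of_mem_erase hx)]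
  rw [this, Function.update_self, hu]
  simp [add_comm]

theorem sum_upd' (h : Fin n → ℕ) (u : Fin n → ℕ) (i : Fin n) (a : ℕ)
    (hu : u i = 0) : ∑ x, Function.update u i a x * h x = ∑ x, u x * h x + a * h i := by
  have := sum_upd h u i a hu
  simp only [Nat.cast_id] at this
  simpa [mul_comm] using this

theorem sum_off (h : Fin n → ℤ) (u : Fin n → ℕ) (i : Fin n) (a : ℕ)
    (hu : u i = 0) : ∑ x, (if x = i then 0 else h x) * ((Function.update u i a x : ℕ) : ℤ) =
      ∑ x, h x * (u x : ℤ) := by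
  refine Finset.sum_congr rfl fun x _ => ?_
  by_cases hx : x = i
  · subst hx
    simp [hu]
  · rw [if_neg hx, Function.update_of_ne hx]

theorem mem_PA_iff {m : Fin k → Fin n → ℕ} {i : Fin n} {j0 : Fin k} (hj0 : m j0 i = 1)
    {u : Fin n → ℕ} (hu : u i = 0) (a : ℕ) :
    Function.update u i a ∈ PA m i j0 ↔
      (∀ j, j ≠ j0 → 1 ≤ m j i → 1 ≤ dl m j0 j u + ((m j i : ℤ) - 1) * a) ∧
      (∀ j l, j ≠ j0 → 1 ≤ m j i → m l i = 0 →
        1 ≤ ((m j i : ℤ) - 1) * dl m j0 l u + dl m j0 j u) ∧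
      (∀ l, m l i = 0 → 0 ≤ dl m j0 l u) := by
  have e1 : ∀ j, ∑ x, ((m j x : ℤ) - m j0 x) * ((Function.update u i a x : ℕ) : ℤ) =
      dl m j0 j u + ((m j i : ℤ) - 1) * a := by
    intro j
    have := sum_upd (fun x => (m j x : ℤ) - m j0 x) u i a hu
    rw [this, hj0]
    simp [dl]
  have e2 : ∀ j l, ∑ x, (if x = i then 0 else
      ((m j i : ℤ) - 1) * ((m l x : ℤ) - m j0 x) + ((m j x : ℤ) - m j0 x)) *
        ((Function.update u i a x : ℕ) : ℤ) = ((m j i : ℤ) - 1) * dl m j0 l u + dl m j0 j u := by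
    intro j l
    rw [sum_off (fun x => ((m j i : ℤ) - 1) * ((m l x : ℤ) - m j0 x) + ((m j x : ℤ) - m j0 x))
      u i a hu]
    unfold dl
    rw [Finset.mul_sum, ← Finset.sum_add_distrib]
    refine Finset.sum_congr rfl fun x _ => ?_
    ring
  have e3 : ∀ l, ∑ x, (if x = i then 0 else ((m l x : ℤ) - m j0 x)) *
        ((Function.update u i a x : ℕ) : ℤ) = dl m j0 l u := by
    intro l
    rw [sum_off (fun x => ((m l x : ℤ) - m j0 x)) u i a hu]
    rfl
  constructor
  · intro h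
    refine ⟨fun j hj hj1 => ?_, fun j l hj hj1 hl => ?_, fun l hl => ?_⟩
    · have h1 := h (Sum.inl j)
      simp only [cf, cd, if_pos (And.intro hj hj1)] at h1
      rwa [e1] at h1
    · have h1 := h (Sum.inr (Sum.inl (j, l)))
      simp only [cf, cd, if_pos (And.intro hj (And.intro hj1 hl))] at h1
      rwa [e2] at h1
    · have h1 := h (Sum.inr (Sum.inr l))
      simp only [cf, cd, if_pos hl] at h1
      rwa [e3] at h1
  · rintro ⟨h1, h2, h3⟩ (j | ⟨j, l⟩ | l)
    · by_cases hc : j ≠ j0 ∧ 1 ≤ m j i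
      · simp only [cf, cd, if_pos hc]
        rw [e1]
        exact h1 j hc.1 hc.2
      · simp only [cf, cd, if_neg hc]
        simp
    · by_cases hc : j ≠ j0 ∧ 1 ≤ m j i ∧ m l i = 0
      · simp only [cf, cd, if_pos hc]
        rw [e2]
        exact h2 j l hc.1 hc.2.1 hc.2.2
      · simp only [cf, cd, if_neg hc]
        simp
    · by_cases hc : m l i = 0
      · simp only [cf, cd, if_pos hc]
        rw [e3]
        exact h3 l hc
      · simp only [cf, cd, if_neg hc]
        simp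

theorem V_eq {m : Fin k → Fin n → ℕ} {i : Fin n} {j0 : Fin k} (hj0 : m j0 i = 1)
    {u : Fin n → ℕ} (hu : u i = 0) (a : ℕ) (j : Fin k) :
    ((∑ x, Function.update u i a x * m j x : ℕ) : ℤ) =
      ((∑ x, u x * m j0 x : ℕ) : ℤ) + a + (dl m j0 j u + ((m j i : ℤ) - 1) * a) := by
  rw [sum_upd' (m j) u i a hu]
  unfold dl
  push_cast
  have : ∑ x, ((m j x : ℤ) - m j0 x) * (u x : ℤ) =
      ∑ x, (u x : ℤ) * (m j x : ℤ) - ∑ x, (u x : ℤ) * (m j0 x : ℤ) := by
    rw [← Finset.sum_sub_distrib]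
    refine Finset.sum_congr rfl fun x _ => ?_
    ring
  rw [this]
  ring

theorem gord_eq_of {m : Fin k → Fin n → ℕ} (j0 : Fin k) {u : Fin n → ℕ} {g : ℕ}
    (h1 : ∀ j, g ≤ ∑ x, u x * m j x) (h2 : ∃ j, ∑ x, u x * m j x = g) : gord m u = g := by
  apply le_antisymm
  · obtain ⟨j, hj⟩ := h2
    rw [← hj]
    exact gord_le m u j
  · obtain ⟨j, hj⟩ := exists_gord (Fin.pos j0) m u
    rw [← hj]
    exact h1 j

theorem L1 {m : Fin k → Fin n → ℕ} {i : Fin n} {j0 : Fin k} (hj0 : m j0 i = 1)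
    {u : Fin n → ℕ} (hu : u i = 0) {a : ℕ} (hP : Function.update u i a ∈ PA m i j0)
    (hQ : ∀ l, m l i = 0 → (a : ℤ) < dl m j0 l u) :
    gord m (Function.update u i a) = ∑ x, u x * m j0 x + a ∧
      filt m (Function.update u i a) = {j0} := by
  obtain ⟨h1, h2, h3⟩ := (mem_PA_iff hj0 hu a).1 hP
  have hV : ∀ j, ((∑ x, Function.update u i a x * m j x : ℕ) : ℤ) = _ :=
    fun j => V_eq hj0 hu a j
  have h0 : dl m j0 j0 u = 0 := by simp [dl]
  have hlt : ∀ j, j ≠ j0 → ∑ x, u x * m j0 x + a < ∑ x, Function.update u i a x * m j x := by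
    intro j hj
    have hv := hV j
    have : (0 : ℤ) < dl m j0 j u + ((m j i : ℤ) - 1) * a := by
      by_cases hm : 1 ≤ m j i
      · have := h1 j hj hm; omega
      · have hm0 : m j i = 0 := by omega
        have := hQ j hm0
        rw [hm0]
        push_cast
        linarith
    zify
    push_cast at hv
    rw [hv]
    linarith
  have heq : ∑ x, Function.update u i a x * m j0 x = ∑ x, u x * m j0 x + a := by
    rw [sum_upd' (m j0) u i a hu, hj0, mul_one]
  have hg : gord m (Function.update u i a) = ∑ x, u x * m j0 x + a := by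
    refine gord_eq_of j0 (fun j => ?_) ⟨j0, heq⟩
    by_cases hj : j = j0
    · rw [hj, heq]
    · exact (hlt j hj).le
  refine ⟨hg, ?_⟩
  ext j
  rw [mem_filt, hg, Finset.mem_singleton]
  constructor
  · intro h
    by_contra hj
    have := hlt j hj
    omega
  · rintro rfl
    exact heq

/-- the minimal monomials among those not divisible by `x_i` -/
def tau (m : Fin k → Fin n → ℕ) (i : Fin n) (j0 : Fin k) (u : Fin n → ℕ) (K : ℕ) :
    Finset (Fin k) := Finset.univ.filter fun l => m l i = 0 ∧ dl m j0 l u = K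

theorem L2 {m : Fin k → Fin n → ℕ} {i : Fin n} {j0 : Fin k} (hj0 : m j0 i = 1)
    {u : Fin n → ℕ} (hu : u i = 0) {K : ℕ} (hP : Function.update u i K ∈ PA m i j0)
    (hQ : ∀ l, m l i = 0 → (K : ℤ) ≤ dl m j0 l u) :
    gord m (Function.update u i K) = ∑ x, u x * m j0 x + K ∧
      filt m (Function.update u i K) = insert j0 (tau m i j0 u K) := by
  obtain ⟨h1, h2, h3⟩ := (mem_PA_iff hj0 hu K).1 hP
  have hle : ∀ j, j ≠ j0 → (m j i = 0 ∧ dl m j0 j u = K ∧
      ∑ x, Function.update u i K x * m j x = ∑ x, u x * m j0 x + K) ∨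
      (¬ (m j i = 0 ∧ dl m j0 j u = K) ∧
      ∑ x, u x * m j0 x + K < ∑ x, Function.update u i K x * m j x) := by
    intro j hj
    have hv := V_eq hj0 hu K j
    by_cases hm : 1 ≤ m j i
    · have := h1 j hj hm
      refine Or.inr ⟨fun h => by omega, ?_⟩
      zify
      push_cast at hv
      rw [hv]
      linarith
    · have hm0 : m j i = 0 := by omega
      have hq := hQ j hm0
      rw [hm0] at hv
      push_cast at hv
      by_cases hK : dl m j0 j u = K
      · refine Or.inl ⟨hm0, hK, ?_⟩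
        zify
        rw [hv, hK]
        ring
      · refine Or.inr ⟨fun h => hK h.2, ?_⟩
        zify
        rw [hv]
        have : (K : ℤ) < dl m j0 j u := lt_of_le_of_ne hq (Ne.symm hK)
        linarith
  have heq : ∑ x, Function.update u i K x * m j0 x = ∑ x, u x * m j0 x + K := by
    rw [sum_upd' (m j0) u i K hu, hj0, mul_one]
  have hg : gord m (Function.update u i K) = ∑ x, u x * m j0 x + K := by
    refine gord_eq_of j0 (fun j => ?_) ⟨j0, heq⟩
    by_cases hj : j = j0
    · rw [hj, heq]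
    · rcases hle j hj with h | h
      · exact h.2.2.ge
      · exact h.2.le
  refine ⟨hg, ?_⟩
  ext j
  rw [mem_filt, hg, Finset.mem_insert, tau, Finset.mem_filter]
  constructor
  · intro h
    by_cases hj : j = j0
    · exact Or.inl hj
    · rcases hle j hj with h' | h'
      · exact Or.inr ⟨Finset.mem_univ _, h'.1, h'.2.1⟩
      · omega
  · rintro (rfl | ⟨_, h⟩)
    · exact heq
    · have hj : j ≠ j0 := fun hj => by rw [hj, hj0] at h; omega
      rcases hle j hj with h' | h'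
      · exact h'.2.2
      · exact absurd h h'.1

theorem L3 {m : Fin k → Fin n → ℕ} {i : Fin n} {j0 : Fin k} (hj0 : m j0 i = 1)
    {u : Fin n → ℕ} (hu : u i = 0) {K a : ℕ} (ha : K < a)
    (hP : Function.update u i a ∈ PA m i j0)
    (hQ : ∀ l, m l i = 0 → (K : ℤ) ≤ dl m j0 l u) (hne : (tau m i j0 u K).Nonempty) :
    gord m (Function.update u i a) = ∑ x, u x * m j0 x + K ∧
      filt m (Function.update u i a) = tau m i j0 u K := by
  obtain ⟨h1, h2, h3⟩ := (mem_PA_iff hj0 hu a).1 hP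
  have haZ : (K : ℤ) < a := by exact_mod_cast ha
  have heq : ∑ x, Function.update u i a x * m j0 x = ∑ x, u x * m j0 x + a := by
    rw [sum_upd' (m j0) u i a hu, hj0, mul_one]
  have hle : ∀ j, (m j i = 0 ∧ dl m j0 j u = K ∧
      ∑ x, Function.update u i a x * m j x = ∑ x, u x * m j0 x + K) ∨
      (¬ (m j i = 0 ∧ dl m j0 j u = K) ∧
      ∑ x, u x * m j0 x + K < ∑ x, Function.update u i a x * m j x) := by
    intro j
    have hv := V_eq hj0 hu a j
    by_cases hj : j = j0
    · refine Or.inr ⟨fun h => by rw [hj, hj0] at h; omega, ?_⟩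
      rw [hj, heq]
      omega
    by_cases hm : 1 ≤ m j i
    · have := h1 j hj hm
      refine Or.inr ⟨fun h => by omega, ?_⟩
      zify
      push_cast at hv
      rw [hv]
      linarith
    · have hm0 : m j i = 0 := by omega
      have hq := hQ j hm0
      rw [hm0] at hv
      push_cast at hv
      by_cases hK : dl m j0 j u = K
      · refine Or.inl ⟨hm0, hK, ?_⟩
        zify
        rw [hv, hK]
        ring
      · refine Or.inr ⟨fun h => hK h.2, ?_⟩
        zify
        rw [hv]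
        have : (K : ℤ) < dl m j0 j u := lt_of_le_of_ne hq (Ne.symm hK)
        linarith
  obtain ⟨l1, hl1⟩ := hne
  rw [tau, Finset.mem_filter] at hl1
  have hg : gord m (Function.update u i a) = ∑ x, u x * m j0 x + K := by
    refine gord_eq_of j0 (fun j => ?_) ⟨l1, ?_⟩
    · rcases hle j with h | h
      · exact h.2.2.ge
      · exact h.2.le
    · rcases hle l1 with h | h
      · exact h.2.2
      · exact absurd hl1.2 h.1
  refine ⟨hg, ?_⟩
  ext j
  rw [mem_filt, hg, tau, Finset.mem_filter]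
  constructor
  · intro h
    rcases hle j with h' | h'
    · exact ⟨Finset.mem_univ _, h'.1, h'.2.1⟩
    · omega
  · rintro ⟨_, h⟩
    rcases hle j with h' | h'
    · exact h'.2.2
    · exact absurd h h'.1

theorem geo {r : ℂ} (hr : ‖r‖ < 1) (K0 : ℕ) :
    HasSum (fun a : ℕ => if K0 ≤ a then r ^ a else 0) (r ^ K0 * (1 - r)⁻¹) := by
  rw [← hasSum_nat_add_iff' K0]
  have h1 : ∑ a ∈ Finset.range K0, (if K0 ≤ a then r ^ a else 0) = 0 := by
    refine Finset.sum_eq_zero fun a ha => ?_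
    rw [Finset.mem_range] at ha
    rw [if_neg (by omega)]
  rw [h1, sub_zero]
  have h2 := (hasSum_geometric_of_norm_lt_one hr).mul_left (r ^ K0)
  refine h2.congr_fun fun a => ?_
  rw [if_pos (by omega), pow_add, mul_comm]

theorem geo_fin (r : ℂ) {K0 K : ℕ} (h : K0 ≤ K) :
    ∑ a ∈ Finset.range K, (if K0 ≤ a then (1 - r) * r ^ a else 0) = r ^ K0 - r ^ K := by
  induction K, h using Nat.le_induction with
  | base =>
    rw [sub_self]
    refine Finset.sum_eq_zero fun a ha => ?_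
    rw [Finset.mem_range] at ha
    rw [if_neg (by omega)]
  | succ K hK ih =>
    rw [Finset.sum_range_succ, ih, if_pos hK]
    ring

theorem W2_upd (p : ℕ) (c : Fin n → ℕ) {i : Fin n} (hc : c i = 0) (N : ℕ) (z t : ℂ)
    {u : Fin n → ℕ} (hu : u i = 0) (a : ℕ) :
    W2 p c N z t (Function.update u i a) =
      ((p : ℂ)⁻¹ ^ (∑ x, u x) * z ^ (∑ x, c x * u x)) * (p : ℂ)⁻¹ ^ a * t ^ N := by
  unfold W2
  have h1 : ∑ x, Function.update u i a x = ∑ x, u x + a := by
    have := sum_upd' (fun _ => 1) u i a hu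
    simpa using this
  have h2 : ∑ x, c x * Function.update u i a x = ∑ x, c x * u x := by
    have := sum_upd c u i a hu
    simp only [Nat.cast_id] at this
    rw [this, hc]
    simp
  rw [h1, h2, pow_add]
  ring

theorem fib {m : Fin k → Fin n → ℕ} {i : Fin n} {j0 : Fin k} (hj0 : m j0 i = 1)
    {p : ℕ} (hp : 2 ≤ p) {c : Fin n → ℕ} (hc : c i = 0) {E : ℂ}
    {γ : Finset (Fin k) → Polynomial ℂ} (hR : Rel m i p E γ) {z t : ℂ}
    (ht : ‖t‖ ≤ 1) {u : Fin n → ℕ} (hu : u i = 0) :
    ∑' a : ℕ, (PA m i j0).indicator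
        (fun w => W2 p c (gord m w) z t w * (γ (filt m w)).eval t) (Function.update u i a) =
      E * (1 - (p : ℂ)⁻¹ * t) * ∑' a : ℕ, (PA m i j0).indicator
        (fun w => W2 p c (∑ x, w x * m j0 x) z t w) (Function.update u i a) := by
  classical
  by_cases hne : ∃ a, Function.update u i a ∈ PA m i j0
  swap
  · push Not at hne
    simp only [Set.indicator_of_notMem (hne _), tsum_zero, mul_zero]
  have hp0 : (p : ℂ) ≠ 0 := by exact_mod_cast (by omega : p ≠ 0)
  have hpi : ‖(p : ℂ)⁻¹‖ ≤ 1 / 2 := by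
    rw [norm_inv, Complex.norm_natCast]
    have : (2 : ℝ) ≤ p := by exact_mod_cast hp
    rw [one_div]
    exact inv_anti₀ (by norm_num) this
  set r : ℂ := (p : ℂ)⁻¹ * t with hr
  have hr1 : ‖r‖ < 1 := by
    rw [hr, norm_mul]
    have := norm_nonneg t
    have h0 := norm_nonneg (p : ℂ)⁻¹
    nlinarith
  have hpi1 : ‖(p : ℂ)⁻¹‖ < 1 := by linarith
  set K0 := Nat.find hne with hK0
  have hmem : ∀ a, Function.update u i a ∈ PA m i j0 ↔ K0 ≤ a := by
    intro a
    constructor
    · intro h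
      exact Nat.find_min' hne h
    · intro h
      obtain ⟨h1, h2, h3⟩ := (mem_PA_iff hj0 hu K0).1 (Nat.find_spec hne)
      refine (mem_PA_iff hj0 hu a).2 ⟨fun j hj hj1 => ?_, h2, h3⟩
      have h4 := h1 j hj hj1
      have h5 : (0 : ℤ) ≤ (m j i : ℤ) - 1 := by omega
      have h6 : (K0 : ℤ) ≤ a := by exact_mod_cast h
      have := mul_le_mul_of_nonneg_left h6 h5
      linarith
  obtain ⟨_, h2, h3⟩ := (mem_PA_iff hj0 hu K0).1 (Nat.find_spec hne)
  set S : ℂ := (p : ℂ)⁻¹ ^ (∑ x, u x) * z ^ (∑ x, c x * u x) with hS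
  set N' : ℕ := ∑ x, u x * m j0 x with hN'
  have hG : HasSum (fun a : ℕ => (PA m i j0).indicator
        (fun w => W2 p c (∑ x, w x * m j0 x) z t w) (Function.update u i a))
        (S * t ^ N' * (r ^ K0 * (1 - r)⁻¹)) := by
    refine ((geo hr1 K0).mul_left (S * t ^ N')).congr_fun fun a => ?_
    by_cases ha : K0 ≤ a
    · rw [Set.indicator_of_mem ((hmem a).2 ha), W2_upd p c hc _ z t hu a, if_pos ha,
        sum_upd' (m j0) u i a hu, hj0, mul_one, hr, mul_pow, pow_add]
      ring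
    · rw [Set.indicator_of_notMem (fun h => ha ((hmem a).1 h)), if_neg ha, mul_zero]
  have h1r : 1 - r ≠ 0 := by
    intro h
    have : r = 1 := (sub_eq_zero.1 h).symm
    rw [this, norm_one] at hr1
    exact lt_irrefl _ hr1
  rw [hG.tsum_eq]
  have hfin : E * (1 - r) * (S * t ^ N' * (r ^ K0 * (1 - r)⁻¹)) = S * t ^ N' * E * r ^ K0 := by
    field_simp
  rw [hfin]
  have hγ0 : (γ {j0}).eval t = E * (1 - r) := by
    rw [hR.1 j0 hj0]
    simp [hr]
  by_cases hl : ∃ l, m l i = 0
  swap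
  · push Not at hl
    have hF : HasSum (fun a : ℕ => (PA m i j0).indicator
        (fun w => W2 p c (gord m w) z t w * (γ (filt m w)).eval t) (Function.update u i a))
        (S * t ^ N' * (E * (1 - r)) * (r ^ K0 * (1 - r)⁻¹)) := by
      refine ((geo hr1 K0).mul_left (S * t ^ N' * (E * (1 - r)))).congr_fun fun a => ?_
      by_cases ha : K0 ≤ a
      · obtain ⟨hg, hf⟩ := L1 hj0 hu ((hmem a).2 ha) (fun l h => absurd h (hl l))
        rw [Set.indicator_of_mem ((hmem a).2 ha), W2_upd p c hc _ z t hu a, if_pos ha, hg, hf,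
          hγ0, hr, mul_pow, pow_add]
        ring
      · rw [Set.indicator_of_notMem (fun h => ha ((hmem a).1 h)), if_neg ha, mul_zero]
    rw [hF.tsum_eq]
    field_simp
  -- the minimum
  obtain ⟨l1, hl1, hmin⟩ := Finset.exists_min_image
    (Finset.univ.filter fun l => m l i = 0) (fun l => dl m j0 l u)
    (by obtain ⟨l, hl⟩ := hl; exact ⟨l, by simp [hl]⟩)
  rw [Finset.mem_filter] at hl1
  obtain ⟨K, hK⟩ : ∃ K : ℕ, dl m j0 l1 u = K := ⟨(dl m j0 l1 u).toNat, by
    have := h3 l1 hl1.2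
    omega⟩
  have hmin' : ∀ l, m l i = 0 → (K : ℤ) ≤ dl m j0 l u := by
    intro l hl
    rw [← hK]
    exact hmin l (by simp [hl])
  have hKmem : Function.update u i K ∈ PA m i j0 := by
    refine (mem_PA_iff hj0 hu K).2 ⟨fun j hj hj1 => ?_, h2, h3⟩
    have := h2 j l1 hj hj1 hl1.2
    rw [hK] at this
    linarith
  have hK0K : K0 ≤ K := (hmem K).1 hKmem
  have hτne : (tau m i j0 u K).Nonempty := ⟨l1, by simp [tau, hl1.2, hK]⟩
  have hrel : ((p : ℂ) - 1) * (γ (insert j0 (tau m i j0 u K))).eval t +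
      (γ (tau m i j0 u K)).eval t = ((p : ℂ) - 1) * E := by
    have := congrArg (Polynomial.eval t) (hR.2 j0 (tau m i j0 u K) hj0
      (fun l hl => by rw [tau, Finset.mem_filter] at hl; exact hl.2.1) hτne)
    simpa using this
  set γ1 : ℂ := (γ (insert j0 (tau m i j0 u K))).eval t with hγ1
  set γ2 : ℂ := (γ (tau m i j0 u K)).eval t with hγ2
  have hp1 : (p : ℂ) - 1 ≠ 0 := by
    intro h
    have h' : (p : ℂ) = 1 := sub_eq_zero.1 h
    have : p = 1 := by exact_mod_cast h'
    omega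
  have hF : HasSum (fun a : ℕ => (PA m i j0).indicator
        (fun w => W2 p c (gord m w) z t w * (γ (filt m w)).eval t) (Function.update u i a))
        (S * t ^ N' * E * r ^ K0) := by
    rw [← hasSum_nat_add_iff' (K + 1), Finset.sum_range_succ]
    have s1 : ∑ a ∈ Finset.range K, (PA m i j0).indicator
        (fun w => W2 p c (gord m w) z t w * (γ (filt m w)).eval t) (Function.update u i a) =
        S * t ^ N' * E * (r ^ K0 - r ^ K) := by
      rw [← geo_fin r hK0K, Finset.mul_sum]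
      refine Finset.sum_congr rfl fun a ha => ?_
      rw [Finset.mem_range] at ha
      by_cases ha0 : K0 ≤ a
      · obtain ⟨hg, hf⟩ := L1 hj0 hu ((hmem a).2 ha0) (fun l h => by
          have := hmin' l h
          have : (a : ℤ) < K := by exact_mod_cast ha
          omega)
        rw [Set.indicator_of_mem ((hmem a).2 ha0), W2_upd p c hc _ z t hu a, if_pos ha0, hg, hf,
          hγ0, pow_add, hr, mul_pow]
        ring
      · rw [Set.indicator_of_notMem (fun h => ha0 ((hmem a).1 h)), if_neg ha0, mul_zero]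
    have s2 : (PA m i j0).indicator
        (fun w => W2 p c (gord m w) z t w * (γ (filt m w)).eval t) (Function.update u i K) =
        S * t ^ N' * r ^ K * γ1 := by
      obtain ⟨hg, hf⟩ := L2 hj0 hu hKmem hmin'
      rw [Set.indicator_of_mem hKmem, W2_upd p c hc _ z t hu K, hg, hf, pow_add, hr, mul_pow]
      ring
    have s3 : HasSum (fun a : ℕ => (PA m i j0).indicator
        (fun w => W2 p c (gord m w) z t w * (γ (filt m w)).eval t)
          (Function.update u i (a + (K + 1))))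
        ((S * t ^ N' * t ^ K * γ2 * (p : ℂ)⁻¹ ^ (K + 1)) * (1 - (p : ℂ)⁻¹)⁻¹) := by
      refine ((hasSum_geometric_of_norm_lt_one hpi1).mul_left
        (S * t ^ N' * t ^ K * γ2 * (p : ℂ)⁻¹ ^ (K + 1))).congr_fun fun a => ?_
      have hm : Function.update u i (a + (K + 1)) ∈ PA m i j0 := (hmem _).2 (by omega)
      obtain ⟨hg, hf⟩ := L3 hj0 hu (by omega : K < a + (K + 1)) hm hmin' hτne
      rw [Set.indicator_of_mem hm, W2_upd p c hc _ z t hu _, hg, hf]
      simp only [pow_add]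
      ring
    rw [s1, s2]
    have h1p : 1 - (p : ℂ)⁻¹ = ((p : ℂ) - 1) * (p : ℂ)⁻¹ := by
      field_simp
    have hγ : γ1 = E - γ2 * ((p : ℂ) - 1)⁻¹ := by
      field_simp
      linear_combination hrel
    have hval : S * t ^ N' * E * r ^ K0 - (S * t ^ N' * E * (r ^ K0 - r ^ K) +
        S * t ^ N' * r ^ K * γ1) =
        (S * t ^ N' * t ^ K * γ2 * (p : ℂ)⁻¹ ^ (K + 1)) * (1 - (p : ℂ)⁻¹)⁻¹ := by
      have h5 : S * t ^ N' * E * r ^ K0 - (S * t ^ N' * E * (r ^ K0 - r ^ K) +
        S * t ^ N' * r ^ K * γ1) = S * t ^ N' * r ^ K * (E - γ1) := by ring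
      rw [h5, h1p, hγ, hr, mul_pow, pow_succ, mul_inv, inv_inv]
      field_simp
      ring
    rw [hval]
    exact s3
  exact hF.tsum_eq

/-- splitting off one coordinate -/
def spl (i : Fin n) : (({j : Fin n // j ≠ i} → ℕ) × ℕ) ≃ (Fin n → ℕ) :=
  (Equiv.prodComm _ _).trans (Equiv.funSplitAt i ℕ).symm

theorem spl_eq (i : Fin n) (v : {j : Fin n // j ≠ i} → ℕ) (a : ℕ) :
    spl i (v, a) = Function.update (spl i (v, 0)) i a := by
  funext x
  by_cases hx : x = i
  · subst hx
    simp [spl, Equiv.funSplitAt, Equiv.piSplitAt]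
  · simp [spl, Equiv.funSplitAt, Equiv.piSplitAt, hx]

theorem spl_zero (i : Fin n) (v : {j : Fin n // j ≠ i} → ℕ) : spl i (v, 0) i = 0 := by
  simp [spl, Equiv.funSplitAt, Equiv.piSplitAt]

theorem norm_W2 {p : ℕ} (hp : 2 ≤ p) (c : Fin n → ℕ) (N : ℕ) {z t : ℂ} (hz : ‖z‖ ≤ 1)
    (ht : ‖t‖ ≤ 1) (u : Fin n → ℕ) : ‖W2 p c N z t u‖ ≤ ∏ x, ((1 : ℝ) / 2) ^ u x := by
  have hpi : ‖(p : ℂ)⁻¹‖ ≤ 1 / 2 := by
    rw [norm_inv, Complex.norm_natCast]
    have : (2 : ℝ) ≤ p := by exact_mod_cast hp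
    rw [one_div]
    exact inv_anti₀ (by norm_num) this
  unfold W2
  rw [norm_mul, norm_mul, norm_pow, norm_pow, norm_pow, Finset.prod_pow_eq_pow_sum]
  have h1 : ‖(p : ℂ)⁻¹‖ ^ (∑ x, u x) ≤ (1 / 2 : ℝ) ^ (∑ x, u x) :=
    pow_le_pow_left₀ (norm_nonneg _) hpi _
  have h2 : ‖z‖ ^ (∑ x, c x * u x) ≤ 1 := pow_le_one₀ (norm_nonneg _) hz
  have h3 : ‖t‖ ^ N ≤ 1 := pow_le_one₀ (norm_nonneg _) ht
  calc ‖(p : ℂ)⁻¹‖ ^ (∑ x, u x) * ‖z‖ ^ (∑ x, c x * u x) * ‖t‖ ^ N
      ≤ (1 / 2 : ℝ) ^ (∑ x, u x) * 1 * 1 := by gcongr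
    _ = _ := by ring

theorem summ {p : ℕ} (hp : 2 ≤ p) (c : Fin n → ℕ) (N : (Fin n → ℕ) → ℕ) {z t : ℂ}
    (hz : ‖z‖ ≤ 1) (ht : ‖t‖ ≤ 1) (A : Set (Fin n → ℕ)) (g : (Fin n → ℕ) → ℂ) (C : ℝ)
    (hg : ∀ u, ‖g u‖ ≤ C) :
    Summable (A.indicator fun w => W2 p c (N w) z t w * g w) := by
  refine Summable.of_norm_bounded (g := fun u : Fin n → ℕ => (∏ i, ((1 : ℝ) / 2) ^ u i) * C)
    (summable_half.mul_right _) fun u => ?_
  refine (norm_indicator_le_norm_self _ _).trans ?_
  rw [norm_mul]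
  exact mul_le_mul (norm_W2 hp c _ hz ht u) (hg u) (norm_nonneg _)
    (Finset.prod_nonneg fun i _ => by positivity)

/-- BF-FIB -/
theorem main : TaskFIB := by
  intro n k m i j0 hj0 p hp c hc E γ hR z t hz ht
  classical
  rw [tsum_subtype (PA m i j0) (fun w => W2 p c (gord m w) z t w * (γ (filt m w)).eval t),
    tsum_subtype (PA m i j0) (fun w => W2 p c (∑ x, w x * m j0 x) z t w)]
  have sF : Summable ((PA m i j0).indicator
      fun w => W2 p c (gord m w) z t w * (γ (filt m w)).eval t) :=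
    summ hp c (gord m) hz ht _ (fun w => (γ (filt m w)).eval t)
      (∑ τ : Finset (Fin k), ‖(γ τ).eval t‖) fun u =>
        Finset.single_le_sum (f := fun τ => ‖(γ τ).eval t‖) (fun τ _ => norm_nonneg _)
          (Finset.mem_univ (filt m u))
  have sG : Summable ((PA m i j0).indicator
      fun w => W2 p c (∑ x, w x * m j0 x) z t w) := by
    have := summ hp c (fun w => ∑ x, w x * m j0 x) hz ht (PA m i j0) (fun _ => 1) 1
      (fun _ => by simp)
    simpa using this
  rw [← (spl i).tsum_eq, ← (spl i).tsum_eq (f := (PA m i j0).indicator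
      fun w => W2 p c (∑ x, w x * m j0 x) z t w)]
  have sF' := (Equiv.summable_iff (spl i)).2 sF
  have sG' := (Equiv.summable_iff (spl i)).2 sG
  rw [Summable.tsum_prod (f := fun q => (PA m i j0).indicator
      (fun w => W2 p c (gord m w) z t w * (γ (filt m w)).eval t) (spl i q)) sF',
    Summable.tsum_prod (f := fun q => (PA m i j0).indicator
      (fun w => W2 p c (∑ x, w x * m j0 x) z t w) (spl i q)) sG', ← tsum_mul_left]
  refine tsum_congr fun v => ?_
  have h := fib hj0 hp hc hR ht (spl_zero i v) (z := z)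
  simp only [← spl_eq] at h
  exact h

end Pool.Agent.W794.BF
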